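import Pool.Agent.H313.GE.Ell3

/-!
# The geometric analytic rank of elliptic curves in the extensions of `ℓ`-power degree

Here `k` is a finite field with `q` elements, of characteristic at least `5`, `K` a function field of one
variable with field of constants `k`, and `E : y ^ 2 = x ^ 3 + a x + b` an elliptic curve over `K`.

For a finite extension `L` of `K` with field of constants `k'` (with `q'` elements) whose `L`-function
`L(T, E/L) = R` is a polynomial (by Grothendieck always, unless `E` becomes constant over `L`), let `g_L` be the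
number of the zeros `x` of `R` such that `q' x` is a root of unity (`geo`, with multiplicities). By Tate and Milne
the rank of `E` over `L κ` is for every finite extension `κ` of `k'` at most the order of vanishing of the
`L`-function over `L κ`, this order is at most `g_L` (part of the theorem), and `g_L` is the largest of these
orders: it is the conjectural rank over `L k̄`. So `g_L = 0` proves that `E` has only finitely many points over
`L k̄`, and the Birch-Swinnerton-Dyer conjecture over ALL the fields `L κ`.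

The theorem bounds `g_L` for all Galois extensions `L` of `ℓ`-power degree by data of `K` modulo `ℓ`. The
earlier results on towers (ConicBundleTowers, PointsOfPrimeOrder and others) concern the order at `1 / q'` for `L`
itself; a condition at one point modulo `ℓ` cannot exclude zeros at all `ζ / q'`. The new observation is that
a zero `ζ / q'`, `ζ` of order `N`, of an integral polynomial brings a whole factor `Φ_N(q' T)`, and such a
factor is seen modulo `ℓ`, for the prime `ℓ` of the degree itself, by a factor `Φ_m(q T)` with `m` prime to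
`ℓ`.
-/

set_option autoImplicit false
set_option linter.all false
set_option maxHeartbeats 4000000

open Polynomial FF Module Pool.Agent.W343.BSD Pool.Agent.W309.RF Pool.Agent.Y701.QG
open Pool.Agent.H313.GE

namespace Pool.Agent.Results.MP_48b749_nt.GeometricRankCriterion

/-- The place `w` of `L` lies over the place `v` of `K`, with the ramification index `e`. The fields of
constants `k` and `k'` may be different. -/
def LiesOver {k K k' L : Type} [Field k] [Field K] [Algebra k K] [Field k'] [Field L]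
    [Algebra k' L] [Algebra K L] (w : Place k' L) (v : Place k K) (e : ℕ) : Prop :=
  0 < e ∧ ∀ f : K, w.ord (algebraMap K L f) = e * v.ord f

/-- `L` is a Galois extension of `K` of degree a power of `ℓ` with field of constants `k'`, unramified
outside the finite set `B` of places. -/
structure IsExt (k K k' L : Type) [Field k] [Field K] [Algebra k K] [Field k'] [Field L]
    [Algebra k' L] [Algebra K L] (ℓ : ℕ) (B : Finset (Place k K)) : Prop where
  curve : IsCurveField k' L
  galois : IsGalois K L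
  power : ∃ s : ℕ, finrank K L = ℓ ^ s
  unramified : ∀ v, v ∉ B → ∀ (w : Place k' L) (n : ℕ), LiesOver w v n → n = 1

/-- `M = L κ` for a finite extension `κ` of the field of constants `k'` of `L`. -/
structure IsConst (k' L κ M : Type) [Field k'] [Field L] [Algebra k' L] [Field κ] [Field M]
    [Algebra κ M] [Algebra k' κ] [Algebra L M] : Prop where
  curve : IsCurveField κ M
  degree : finrank L M = finrank k' κ

/-- For all Galois extensions `L` of `K` of `ℓ`-power degree, unramified outside `B`, with any field of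
constants `k'`, such that `L(T, E/L) = R` is a polynomial: `[k' : k] g_L ≤ [L : K] N`, and the
`L`-function of `E` over `L κ` vanishes for all finite extensions `κ` of `k'` at most to the order
`g_L`. -/
def Bound (k : Type) {K : Type} [Field k] [Field K] [Algebra k K] (ℓ : ℕ) (B : Finset (Place k K))
    (a b : K) (N : ℕ) : Prop :=
  ∀ (k' L : Type) [Field k'] [Finite k'] [Field L] [Algebra k' L] [Algebra k k'] [Algebra k L]
    [Algebra K L] [IsScalarTower k K L] [IsScalarTower k k' L], IsExt k K k' L ℓ B →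
    ∀ R : ℤ[X], S.Lfun k' (algebraMap K L a) (algebraMap K L b) = (R : PowerSeries ℤ) →
      finrank k k' * geo (Nat.card k') R ≤ finrank K L * N ∧
      ∀ (κ M : Type) [Field κ] [Finite κ] [Field M] [Algebra κ M] [Algebra k' κ] [Algebra k' M]
        [Algebra L M] [IsScalarTower k' L M] [IsScalarTower k' κ M], IsConst k' L κ M →
        ∀ m : ℕ, S.VanishesTo κ (algebraMap L M (algebraMap K L a))
          (algebraMap L M (algebraMap K L b)) m → m ≤ geo (Nat.card k') R

/-- The places of `B` are places of additive reduction, or places of degree `d` of good reduction with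
trace congruent to `c` modulo `ℓ`, where `q ^ d + 1 - c` and `q ^ d + 1 + c` are not divisible by `ℓ`, and
also `c`, `c - 1`, `c + 1` are not, if `q ^ d` is congruent to `1`. -/
structure IsTame {k K : Type} [Field k] [Field K] [Algebra k K] (ℓ : ℕ) (B : Finset (Place k K))
    (a b : K) (d : ℕ) (c : ℤ) : Prop where
  places : ∀ v ∈ B, (v.ord (minDisc v a b) ≠ 0 ∧ S.trace v a b = 0) ∨
    (v.ord (minDisc v a b) = 0 ∧ S.deg v = d ∧ (ℓ : ℤ) ∣ S.trace v a b - c)
  first : ¬ (ℓ : ℤ) ∣ (Nat.card k : ℤ) ^ d + 1 - c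
  second : ¬ (ℓ : ℤ) ∣ (Nat.card k : ℤ) ^ d + 1 + c
  third : (ℓ : ℤ) ∣ (Nat.card k : ℤ) ^ d - 1 → ¬ (ℓ : ℤ) ∣ c * (c - 1) * (c + 1)

/-- `S` is the set of the monic irreducible factors of `g ^ 2 - f h` in `k[x]`, and `R` the set of the
monic irreducible factors in `k[t]` of the coefficient `f_3 + 2 g_3 t + h_3 t ^ 2` of `x ^ 3`. -/
structure IsFactors {k : Type} [Field k] (f g h : k[X]) (S R : Finset k[X]) : Prop where
  first : ∀ P, P ∈ S ↔ P.Monic ∧ Irreducible P ∧ P ∣ g ^ 2 - f * h
  second : ∀ P, P ∈ R ↔ P.Monic ∧ Irreducible P ∧ P ∣ co f g h 3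

theorem bound_of {k K : Type} [Field k] [Finite k] [Field K] [Algebra k K] (hK : IsCurveField k K)
    (h6 : (6 : k) ≠ 0) {ℓ : ℕ} [hℓ : Fact ℓ.Prime] (hlk : (ℓ : k) ≠ 0) {a b : K}
    (hΔ : 4 * a ^ 3 + 27 * b ^ 2 ≠ 0) (B : Finset (Place k K)) {U V : ℤ[X]} (hV : V.coeff 0 = 1)
    (hP : S.Lfun k a b * (V : PowerSeries ℤ) = (U : PowerSeries ℤ))
    {t : Multiset ℕ} {H : (ZMod ℓ)[X]} (ht : ∀ N ∈ t, 0 < N)
    (hf : (U * ∏ v ∈ B, S.locFactor v a b).map (Int.castRingHom (ZMod ℓ)) =
      cprod (ZMod ℓ) (Nat.card k) t * H) (hH : NoCyc ℓ (Nat.card k) H) :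
    Bound k ℓ B a b (t.map Nat.totient).sum := by
  intro k' L _ _ _ _ _ _ _ _ _ hext R hR
  have iK : FF.IsFF k K := ⟨hK.essFiniteType, hK.trdeg_eq_one⟩
  obtain ⟨s, hs⟩ := hext.power
  have i1 : FiniteDimensional K L := Module.finite_of_finrank_pos (by
    rw [hs]; exact pow_pos hℓ.out.pos s)
  have i2 : FF.IsFF k L := isFF_of_finite (K := K)
  have i3 : FF.IsFF k' L := ⟨hext.curve.essFiniteType, hext.curve.trdeg_eq_one⟩
  have i4 := hext.galois
  have hΔL : 4 * (algebraMap K L a) ^ 3 + 27 * (algebraMap K L b) ^ 2 ≠ 0 := by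
    have e1 : 4 * algebraMap K L a ^ 3 + 27 * algebraMap K L b ^ 2 =
        algebraMap K L (4 * a ^ 3 + 27 * b ^ 2) := by
      rw [map_add, map_mul, map_mul, map_pow, map_pow, map_ofNat, map_ofNat]
    rw [e1]; exact (_root_.map_ne_zero _).2 hΔ
  rw [S.lfun_eq hΔ] at hP
  rw [S.lfun_eq hΔL] at hR
  have hf' : (U * ∏ v ∈ B, locFactor v a b).map (Int.castRingHom (ZMod ℓ)) =
      cprod (ZMod ℓ) (Nat.card k) t * H := by
    rw [← hf]
    congr 2
    exact Finset.prod_congr rfl fun v _ => (S.locFactor_eq v hΔ).symm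
  have hH0 : H ≠ 0 := by
    rintro rfl
    exact hH 1 one_pos (fun h => hℓ.out.ne_one (Nat.dvd_one.1 h)) (dvd_zero _)
  refine ⟨?_, ?_⟩
  · exact rank_crit hlk hs hΔ B (fun v hv w n hov => hext.unramified v hv (upPlace (k' := k') w) n
      ⟨hov.1, hov.2⟩) hV hP ht hf' hH0 hH hR
  · intro κ M _ _ _ _ _ _ _ _ _ hc m hm
    have j0 : FiniteDimensional k' κ := Module.Finite.of_finite
    have j1 : FiniteDimensional L M := Module.finite_of_finrank_pos (by
      rw [hc.degree]; exact finrank_pos)
    have j2 : FF.IsFF k' M := isFF_of_finite (K := L)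
    have j3 : FF.IsFF κ M := ⟨hc.curve.essFiniteType, hc.curve.trdeg_eq_one⟩
    have h6' : (6 : k') ≠ 0 := by
      have : (6 : k') = algebraMap k k' 6 := by rw [map_ofNat]
      rw [this]
      exact (_root_.map_ne_zero _).2 h6
    have hΔM : 4 * (algebraMap L M (algebraMap K L a)) ^ 3 +
        27 * (algebraMap L M (algebraMap K L b)) ^ 2 ≠ 0 := by
      have e1 : 4 * (algebraMap L M (algebraMap K L a)) ^ 3 +
        27 * (algebraMap L M (algebraMap K L b)) ^ 2 =
          algebraMap L M (4 * (algebraMap K L a) ^ 3 + 27 * (algebraMap K L b) ^ 2) := by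
        rw [map_add, map_mul, map_mul, map_pow, map_pow, map_ofNat, map_ofNat]
      rw [e1]; exact (_root_.map_ne_zero _).2 hΔL
    obtain ⟨G, hG⟩ := hm
    rw [S.lfun_eq hΔM] at hG
    exact rank_const h6' hext.curve.algClosed hc.degree hΔL hR ⟨G, hG⟩

theorem coeff_zero {k K : Type} [Field k] [Finite k] [Field K] [Algebra k K] (hK : IsCurveField k K)
    {a b : K} (hΔ : 4 * a ^ 3 + 27 * b ^ 2 ≠ 0) {U V : ℤ[X]} (hV : V.coeff 0 = 1)
    (hP : S.Lfun k a b * (V : PowerSeries ℤ) = (U : PowerSeries ℤ)) : U.coeff 0 = 1 := by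
  have iK : FF.IsFF k K := ⟨hK.essFiniteType, hK.trdeg_eq_one⟩
  rw [S.lfun_eq hΔ] at hP
  have h1 := congrArg PowerSeries.constantCoeff hP
  rw [map_mul, Pool.Agent.Y701.QF.constantCoeff_lfun, one_mul,
    ← PowerSeries.coeff_zero_eq_constantCoeff_apply,
    ← PowerSeries.coeff_zero_eq_constantCoeff_apply, Polynomial.coeff_coe, Polynomial.coeff_coe,
    hV] at h1
  exact h1.symm

/-- Let `ℓ` be any prime, `q` the number of elements of the finite field `k` of characteristic at least `5` and
different from `ℓ`, and `B` a finite set of places of `K`.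

(1) Let `L(T, E/K) V(T) = U(T)` with `V(0) = 1` for an elliptic curve `E` over any function field `K` with
field of constants `k`. If modulo `ℓ` the product of `U` with the Euler factors of `E` at the places of `B` is
`∏_{N ∈ t} Φ_N(q T)` times a polynomial which is divisible by no `Φ_m(q T)` with `m` prime to `ℓ`, then
`[k' : k] g_L ≤ [L : K] ∑_{N ∈ t} φ(N)` for all Galois extensions `L` of `K` of `ℓ`-power degree unramified outside
`B`, with any field of constants `k'`, and over all the fields `L κ` the `L`-function vanishes at most to the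
order `g_L`. This is for `N = 1` the behaviour of a rank: the rank over `L k̄` is at most `[L k̄ : K k̄]` times the
rank of the base modulo `ℓ`.

(2) The Euler factors are harmless if `B` consists of places of additive reduction and of places of degree `d` of
good reduction with the same trace `c` modulo `ℓ`, where `ℓ` does not divide `(q ^ d + 1 - c) (q ^ d + 1 + c)`,
nor `c (c - 1) (c + 1)` if `ℓ` divides `q ^ d - 1` (as it does for ramified places): so for `c` different from
`0`, `1`, `-1`, `2`, `-2` modulo `ℓ`.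

(3) For all rational elliptic surfaces `E : y ^ 2 = f(x) + 2 g(x) t + h(x) t ^ 2` over `k(t)`, `f`, `g`, `h` of
degree at most three (`Good`; the short form is `y ^ 2 = x ^ 3 + PA x + PB`), and `B` as in (2):
`[k' : k] g_L ≤ [L : K] ∑_P deg P`, the sum over the monic irreducible factors `P` of `g ^ 2 - f h` with
`ε_P ≠ 0` (`ε_P` is the quadratic character of `h` modulo `P`, or of `f` if `P` divides `h`): so at most
`6 [L : K] / [k' : k]` although the genus of `L` and the degree of the `L`-function of `E` over `L` are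
unbounded in terms of `[L : K]`.

(4) Let `4 α ^ 3 + 27 β ^ 2 ≠ 0`, and let `q - c` be the number of the solutions in `k` of
`y ^ 2 = x ^ 3 + α x + β`. If `ℓ` does not divide `(q + 1 - c) (q + 1 + c)`, nor `c (c - 1) (c + 1)` if `ℓ` divides
`q - 1`, then `g_L = 0` for `E : y ^ 2 = x ^ 3 + α x + β + t` over ALL Galois extensions `L` of `k(t)` of
`ℓ`-power degree unramified outside `t = 0` and `t = ∞`: so `E` has only finitely many points over all the fields
`L k̄`, and the Birch-Swinnerton-Dyer conjecture holds for `E` over `L κ`, for all `L` and all `κ`. -/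
theorem result (ℓ : ℕ) [Fact ℓ.Prime] :
    (∀ (k K : Type) [Field k] [Finite k] [Field K] [Algebra k K], IsCurveField k K →
      (6 : k) ≠ 0 → (ℓ : k) ≠ 0 → ∀ a b : K, 4 * a ^ 3 + 27 * b ^ 2 ≠ 0 →
      ∀ (B : Finset (Place k K)) (U V : ℤ[X]), V.coeff 0 = 1 →
        S.Lfun k a b * (V : PowerSeries ℤ) = (U : PowerSeries ℤ) →
        ∀ (t : Multiset ℕ), (∀ N ∈ t, 0 < N) →
          (∀ H : (ZMod ℓ)[X], (U * ∏ v ∈ B, S.locFactor v a b).map (Int.castRingHom (ZMod ℓ)) =
              cprod (ZMod ℓ) (Nat.card k) t * H → NoCyc ℓ (Nat.card k) H →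
            Bound k ℓ B a b (t.map Nat.totient).sum) ∧
          ((∃ z : ZMod ℓ, U.map (Int.castRingHom (ZMod ℓ)) =
              cprod (ZMod ℓ) (Nat.card k) t * C z) →
            ∀ (d : ℕ) (c : ℤ), IsTame ℓ B a b d c → Bound k ℓ B a b (t.map Nat.totient).sum)) ∧
    (∀ (k : Type) [Field k] [Finite k], (6 : k) ≠ 0 → (ℓ : k) ≠ 0 → ∀ f g h : k[X], Good f g h →
      ∀ S₀ R₀ : Finset k[X], IsFactors f g h S₀ R₀ → ∀ (B : Finset (Place k (RatFunc k))) (d : ℕ)
        (c : ℤ), IsTame ℓ B (A (PA f g h)) (A (PB f g h)) d c →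
        Bound k ℓ B (A (PA f g h)) (A (PB f g h))
          (∑ P ∈ S₀, if eps f h P = 0 then 0 else P.natDegree)) ∧
    ∀ (k : Type) [Field k] [Finite k], (6 : k) ≠ 0 → (ℓ : k) ≠ 0 → ∀ (α β : k) (c : ℤ),
      4 * α ^ 3 + 27 * β ^ 2 ≠ 0 →
      (Nat.card {P : k × k // P.2 ^ 2 = P.1 ^ 3 + α * P.1 + β} : ℤ) = Nat.card k - c →
      ¬ (ℓ : ℤ) ∣ ((Nat.card k : ℤ) + 1 - c) * ((Nat.card k : ℤ) + 1 + c) →
      ((ℓ : ℤ) ∣ (Nat.card k : ℤ) - 1 → ¬ (ℓ : ℤ) ∣ c * (c - 1) * (c + 1)) →
      ∀ B : Finset (Place k (RatFunc k)), (∀ v ∈ B, v.ord RatFunc.X ≠ 0) →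
        Bound k ℓ B (A (C α)) (A (C β + X)) 0 := by
  classical
  have part2 : ∀ (k K : Type) [Field k] [Finite k] [Field K] [Algebra k K], IsCurveField k K →
      (6 : k) ≠ 0 → (ℓ : k) ≠ 0 → ∀ a b : K, 4 * a ^ 3 + 27 * b ^ 2 ≠ 0 →
      ∀ (B : Finset (Place k K)) (U V : ℤ[X]), V.coeff 0 = 1 →
        S.Lfun k a b * (V : PowerSeries ℤ) = (U : PowerSeries ℤ) →
        ∀ (t : Multiset ℕ), (∀ N ∈ t, 0 < N) → (∃ z : ZMod ℓ, U.map (Int.castRingHom (ZMod ℓ)) =
              cprod (ZMod ℓ) (Nat.card k) t * C z) →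
            ∀ (d : ℕ) (c : ℤ), IsTame ℓ B a b d c → Bound k ℓ B a b (t.map Nat.totient).sum := by
    intro k K _ _ _ _ hK h6 hlk a b hΔ B U V hV hP t ht hz d c hB
    obtain ⟨z, hz⟩ := hz
    have iK : FF.IsFF k K := ⟨hK.essFiniteType, hK.trdeg_eq_one⟩
    have hz0 : z ≠ 0 := by
      rintro rfl
      rw [C_0, mul_zero] at hz
      have h1 := congrArg (fun p => Polynomial.coeff p 0) hz
      simp only [Polynomial.coeff_map, Polynomial.coeff_zero, coeff_zero hK hΔ hV hP, map_one] at h1
      exact one_ne_zero h1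
    refine bound_of hK h6 hlk hΔ B hV hP ht
      (H := C z * (∏ v ∈ B, S.locFactor v a b).map (Int.castRingHom (ZMod ℓ))) ?_ ?_
    · rw [Polynomial.map_mul, hz, mul_assoc]
    · exact (tame_pow hlk hΔ B hB.places hB.first hB.second hB.third).const_mul hz0
  refine ⟨?_, ?_, ?_⟩
  · intro k K _ _ _ _ hK h6 hlk a b hΔ B U V hV hP t ht
    exact ⟨fun H hf hH => bound_of hK h6 hlk hΔ B hV hP ht hf hH,
      part2 k K hK h6 hlk a b hΔ B U V hV hP t ht⟩
  · intro k _ _ h6 hlk f g h hG S₀ R₀ hSR B d c hB
    letI : Fintype k := Fintype.ofFinite k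
    have hQ0 : Nat.card k ≠ 0 := Nat.card_pos.ne'
    have hex := exact_lfun h6 hG hSR.first hSR.second
    have hdegS : ∀ P ∈ S₀, P.natDegree ≠ 0 := fun P hP =>
      ((hSR.first P).1 hP).2.1.natDegree_pos.ne'
    have hdegT : ∀ P ∈ R₀, P.natDegree ≠ 0 := fun P hP =>
      ((hSR.second P).1 hP).2.1.natDegree_pos.ne'
    obtain ⟨t, b, ht, hU, hb, hsum⟩ := prodF_decomp hQ0 hdegS (c := eps f h) (fun P => eps_cases f h P)
    rw [← hsum]
    rw [← S.lfun_eq hG.hΔ] at hex
    refine part2 k (RatFunc k) ?_ h6 hlk _ _ hG.hΔ B (prodF (Nat.card k : ℤ) S₀ (eps f h))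
      ((1 - C (si h * (Nat.card k : ℤ)) * X) * prodF (Nat.card k : ℤ) R₀ (sig f g h)) ?_ hex t ht
      ?_ d c hB
    · exact ⟨FF.IsFF.ess, FF.IsFF.trdeg, const_rat⟩
    · rw [coeff_zero_eq_eval_zero, eval_mul]
      unfold prodF
      rw [eval_prod, Finset.prod_eq_one, mul_one]
      · simp
      · intro P hP
        rw [eval_sub, eval_one, eval_mul, eval_pow, eval_X, zero_pow (hdegT P hP), mul_zero,
          sub_zero]
    · refine ⟨(b : ZMod ℓ), ?_⟩
      rw [hU, Polynomial.map_mul, cprod_map, Polynomial.map_C]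
      rfl
  · intro k _ _ h6 hlk α β c hab hcard hd1 hd2 B hB
    have hΔ : 4 * (A (C α) : RatFunc k) ^ 3 + 27 * A (C β + X) ^ 2 ≠ 0 := by
      rw [A_disc]
      exact A_ne (disc_ex h6 α β)
    have h1 : Bound k ℓ B (A (C α)) (A (C β + X)) ((0 : Multiset ℕ).map Nat.totient).sum := by
      refine part2 k (RatFunc k) ?_ h6 hlk _ _ hΔ B 1 1 (by simp) ?_ 0 (by simp) ?_ 1 c ?_
      · exact ⟨FF.IsFF.ess, FF.IsFF.trdeg, const_rat⟩
      · rw [S.lfun_eq hΔ, lfun_ex h6, Polynomial.coe_one, mul_one]
      · exact ⟨1, by rw [cprod_zero]; simp⟩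
      · refine ⟨?_, ?_, ?_, ?_⟩
        · intro v hv
          rcases tame_ex h6 hab (hB v hv) with h2 | ⟨h2, h3, h4⟩
          · exact Or.inl h2
          · refine Or.inr ⟨h2, h3, ?_⟩
            rw [h4, hcard]
            have : (Nat.card k : ℤ) - (Nat.card k - c) - c = 0 := by ring
            rw [this]
            exact dvd_zero _
        · intro h5
          rw [pow_one] at h5
          exact hd1 (h5.mul_right _)
        · intro h5
          rw [pow_one] at h5
          exact hd1 (h5.mul_left _)
        · rw [pow_one]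
          exact hd2
    simpa using h1

end Pool.Agent.Results.MP_48b749_nt.GeometricRankCriterion
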