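import Pool.Agent.X278.TP.Main

/-!
# Elliptic curves with a rational point of prime order over function fields of every genus

The order of vanishing of the `L`-function, and nonvanishing for the curves with a point of order
five.
-/

set_option autoImplicit false
set_option linter.all false
set_option maxHeartbeats 4000000

open Polynomial Pool.Agent.W343.BSD Pool.Agent.W313.Gr

namespace Pool.Agent.Results.MP_48b749_nt.PointsOfPrimeOrder

open Classical in
/-- The elliptic curve `y ^ 2 = x ^ 3 + a x + b` has a `K`-rational point of order `l`. -/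
def HasPoint {K : Type} [Field K] (a b : K) (l : ℕ) : Prop :=
  ∃ P : (curve a b).toAffine.Point, addOrderOf P = l

/-- The first coefficient of `E_h`. -/
def coeffA {K : Type} [Field K] (h : K) : K :=
  -27 * (h ^ 4 - 12 * h ^ 3 + 14 * h ^ 2 + 12 * h + 1)

/-- The second coefficient of `E_h`. -/
def coeffB {K : Type} [Field K] (h : K) : K :=
  54 * (h ^ 2 + 1) * (h ^ 4 - 18 * h ^ 3 + 74 * h ^ 2 + 18 * h + 1)

open Classical in
/-- The weight of a place `v` for `E_h`, with `q_v` elements in the residue field: the largest power of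
`5` dividing the degree of `v` if `h` has a zero or a pole at `v`, or if `h ^ 2 - 11 h - 1` has a zero
at `v` and `5` divides `q_v - 1`; and zero otherwise. -/
noncomputable def cuspWeight {k K : Type} [Field k] [Field K] [Algebra k K] (v : FF.Place k K)
    (h : K) : ℕ :=
  if v.ord h ≠ 0 ∨ (0 < v.ord (h ^ 2 - 11 * h - 1) ∧ (5 : ℤ) ∣ Nat.card (S.Res v) - 1) then
    5 ^ padicValNat 5 (S.deg v) else 0

/-- `h` has exactly one zero and exactly one pole (of any order), at places of degree prime to
five, and `5` does not divide `q_v - 1` if `v` is a zero of `h ^ 2 - 11 h - 1`. -/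
structure Conditions (k : Type) {K : Type} [Field k] [Field K] [Algebra k K] (h : K) : Prop where
  zero : ∃ v : FF.Place k K, 0 < v.ord h ∧ ¬ 5 ∣ S.deg v ∧ ∀ w : FF.Place k K, 0 < w.ord h → w = v
  pole : ∃ v : FF.Place k K, v.ord h < 0 ∧ ¬ 5 ∣ S.deg v ∧ ∀ w : FF.Place k K, w.ord h < 0 → w = v
  cusp : ∀ v : FF.Place k K, 0 < v.ord (h ^ 2 - 11 * h - 1) → ¬ (5 : ℤ) ∣ Nat.card (S.Res v) - 1

/-- (1) Let `K` be the function field of a curve over the finite field `k` with `q` elements, of
characteristic at least `5`, and `E : y ^ 2 = x ^ 3 + a x + b` an elliptic curve over `K` with a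
`K`-rational point of prime order `l`, not the characteristic. If `L(T, E) = (1 - q T) ^ M G(T)` with
`G` in `ℤ[T]`, then `M + 2 + e` is at most `rootSum + weightSum`, with `e = 2` if `l` divides `q - 1` and
`e = 0` otherwise; `rootSum` is zero if `l` does not divide the class number of `K`.

(2) If the characteristic is at least `7` and `h` in `K` is not constant, then
`E_h : y ^ 2 = x ^ 3 + coeffA h x + coeffB h` (the curve `y ^ 2 + (1 - h) x y - h y = x ^ 3 - h x ^ 2`) is
an elliptic curve with nonconstant `j`-invariant and a point of order five, and its `weightSum` for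
`l = 5` is the sum of the weights `cuspWeight`.

(3) If moreover the class number of `K` is prime to `5` and `h` satisfies the conditions, then
`L(T, E_h)` does not vanish at `1 / q`: it is not `1 - q T` times an integral polynomial; and if it is
a polynomial and the rank is at most its order of vanishing at `1 / q`, then both are zero.

(4) If `q` is `2` or `3` modulo `5`, then this holds for `K = k(t)` and `h = c t ^ n` for all `c` in `k`,
`c ≠ 0`, and all `n ≥ 1` all of whose prime factors are `3` modulo `4`. -/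
theorem result :
    (∀ (k K : Type) [Field k] [Finite k] [Field K] [Algebra k K], (6 : k) ≠ 0 →
      IsCurveField k K → ∀ a b : K, 4 * a ^ 3 + 27 * b ^ 2 ≠ 0 →
      ∀ l : ℕ, l.Prime → (l : k) ≠ 0 → HasPoint a b l →
      ∃ Z : ℤ[X], IsNumerator k K Z ∧ (¬ l ∣ S.classNumber k K → rootSum l k Z = 0) ∧
        ∀ M : ℕ, S.VanishesTo k a b M →
          M + 2 + (if l ∣ Nat.card k - 1 then 2 else 0) ≤ rootSum l k Z + weightSum l k a b) ∧
    (∀ (k K : Type) [Field k] [Finite k] [Field K] [Algebra k K], (30 : k) ≠ 0 →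
      IsCurveField k K → ∀ h : K, h ∉ (algebraMap k K).range →
      4 * coeffA h ^ 3 + 27 * coeffB h ^ 2 ≠ 0 ∧
      (∀ c : k, 6912 * coeffA h ^ 3 / (4 * coeffA h ^ 3 + 27 * coeffB h ^ 2) ≠
        algebraMap k K c) ∧
      HasPoint (coeffA h) (coeffB h) 5 ∧
      weightSum 5 k (coeffA h) (coeffB h) = ∑ᶠ v : FF.Place k K, cuspWeight v h) ∧
    (∀ (k K : Type) [Field k] [Finite k] [Field K] [Algebra k K], (30 : k) ≠ 0 →
      IsCurveField k K → ¬ 5 ∣ S.classNumber k K → ∀ h : K, Conditions k h →
      (∀ M : ℕ, S.VanishesTo k (coeffA h) (coeffB h) M → M = 0) ∧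
      ∀ r : ℕ, HasOrder k (coeffA h) (coeffB h) r → rank (coeffA h) (coeffB h) ≤ r →
        r = 0 ∧ rank (coeffA h) (coeffB h) = 0) ∧
    ∀ (k : Type) [Field k] [Finite k], (30 : k) ≠ 0 → Nat.card k % 5 = 2 ∨ Nat.card k % 5 = 3 →
      IsCurveField k (RatFunc k) ∧ ¬ 5 ∣ S.classNumber k (RatFunc k) ∧
      ∀ c : k, c ≠ 0 → ∀ n : ℕ, 0 < n → (∀ r : ℕ, r.Prime → r ∣ n → r % 4 = 3) →
        Conditions k (algebraMap k (RatFunc k) c * RatFunc.X ^ n) := by
  refine ⟨?_, ?_, ?_, ?_⟩
  · intro k K _ _ _ _ h6 hK a b hΔ l hl hlk ⟨P, hP⟩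
    exact Pool.Agent.X278.TP.general h6 hK hΔ hl hlk P hP
  · intro k K _ _ _ _ h30 hK h hh
    haveI : FF.IsFF k K := ⟨hK.essFiniteType, hK.trdeg_eq_one⟩
    obtain ⟨h6, h5⟩ := Pool.Agent.X278.TP.ne_of_30 h30
    have h1 := Pool.Agent.X278.TP.cusp_ne hK.algClosed hh
    have h6' : (6 : K) ≠ 0 := Pool.Agent.X278.TP.six_K h6
    exact ⟨Pool.Agent.X278.TP.f_disc_ne h6' h1, Pool.Agent.X278.TP.j_ne h6 hK.algClosed hh,
      Pool.Agent.X278.TP.f_order h6' h1, Pool.Agent.X278.TP.weightSum_five h6 h5 h1⟩
  · intro k K _ _ _ _ h30 hK hcl h hC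
    have h1 := Pool.Agent.X278.TP.vanish_zero h30 hK hcl (h := h) ⟨hC.zero, hC.pole, hC.cusp⟩
    exact ⟨h1, fun r hr hle => Pool.Agent.X278.TP.rankZero_of h1 hr hle⟩
  · intro k _ _ h30 hq
    refine ⟨Pool.Agent.TH958.T4.isCurveField_rat, ?_, ?_⟩
    · rw [Pool.Agent.W309.RF.classNumber_rat]
      norm_num
    · intro c hc n hn hr
      have h2 : (2 : k) ≠ 0 := by
        intro h
        apply h30
        linear_combination 15 * h
      have h1 := Pool.Agent.X278.TP.cond_pow h2 hc hn hr hq
      exact ⟨h1.zero, h1.pole, h1.cusp⟩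

end Pool.Agent.Results.MP_48b749_nt.PointsOfPrimeOrder
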