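import Pool.Agent.X278.TC.Main

/-!
# Elliptic curves over function fields in the families of curves three-congruent to a constant one

The order of vanishing of the `L`-function, and nonvanishing modulo three.
-/

set_option autoImplicit false
set_option linter.all false
set_option maxHeartbeats 4000000

open Polynomial Pool.Agent.W343.BSD Pool.Agent.W313.Gr

namespace Pool.Agent.Results.MP_48b749_nt.ThreeCongruentFamilies

/-- The three-division polynomial of the elliptic curve `E_0 : y ^ 2 = x ^ 3 - 27 c x - 54 e`, in the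
variable `s = x / 3` (divided by `243`). It has no root in `k` if and only if `E_0` has no subgroup of
order three defined over `k`. -/
def quartic {k : Type} [Field k] (c e s : k) : k := s ^ 4 - 6 * c * s ^ 2 - 8 * e * s - 3 * c ^ 2

/-- The first coefficient of `E_h`. -/
def coeffA {k K : Type} [Field k] [Field K] [Algebra k K] (c e : k) (h : K) : K :=
  -27 * (algebraMap k K c + algebraMap k K (4 * e) * h + algebraMap k K (6 * c ^ 2) * h ^ 2 +
    algebraMap k K (4 * c * e) * h ^ 3 - algebraMap k K (3 * c ^ 3 - 4 * e ^ 2) * h ^ 4)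

/-- The second coefficient of `E_h`. -/
def coeffB {k K : Type} [Field k] [Field K] [Algebra k K] (c e : k) (h : K) : K :=
  -54 * (algebraMap k K e + algebraMap k K (6 * c ^ 2) * h + algebraMap k K (15 * c * e) * h ^ 2 +
    algebraMap k K (20 * e ^ 2) * h ^ 3 + algebraMap k K (15 * c ^ 2 * e) * h ^ 4 +
    algebraMap k K (6 * (3 * c ^ 4 - 2 * c * e ^ 2)) * h ^ 5 +
    algebraMap k K (9 * c ^ 3 * e - 8 * e ^ 3) * h ^ 6)

/-- The cusp polynomial: `E_h` has bad reduction exactly at its zeros. -/
def cusp {k K : Type} [Field k] [Field K] [Algebra k K] (c e : k) (h : K) : K :=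
  1 - algebraMap k K (6 * c) * h ^ 2 - algebraMap k K (8 * e) * h ^ 3 -
    algebraMap k K (3 * c ^ 2) * h ^ 4

/-- The number `N`: it is `4` if `q` is `1` modulo `3`, and `8` otherwise. -/
noncomputable def period (k : Type) : ℕ := if Nat.card k % 3 = 1 then 4 else 8

/-- The number of roots of `P` modulo `3` in an algebraic closure of the field with three elements
which are primitive `N`-th roots of unity, counted with multiplicity. -/
noncomputable def rootNumber (k : Type) (P : ℤ[X]) : ℕ :=
  ∑ ζ ∈ primitiveRoots (period k) (AlgebraicClosure (ZMod 3)),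
    (P.map (Int.castRingHom (AlgebraicClosure (ZMod 3)))).rootMultiplicity ζ

open Classical in
/-- The weight of a place `v` for a function `f`: the largest power of `3` dividing the degree of `v`
if `f` has a zero at `v` and `N` divides the degree of `v`, and `0` otherwise. -/
noncomputable def cuspWeight {k K : Type} [Field k] [Field K] [Algebra k K] (v : FF.Place k K)
    (f : K) : ℕ :=
  if 0 < v.ord f ∧ period k ∣ S.deg v then 3 ^ padicValNat 3 (S.deg v) else 0

/-- `P` modulo `3` is prime to `T ^ (N / 2) + 1`, and no zero of `f` has a degree divisible by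
`N`. -/
structure Conditions (k : Type) {K : Type} [Field k] [Field K] [Algebra k K] (P : ℤ[X])
    (f : K) : Prop where
  zeta : IsCoprime (P.map (Int.castRingHom (ZMod 3))) (X ^ (period k / 2) + 1)
  cusp : ∀ v : FF.Place k K, 0 < v.ord f → ¬ period k ∣ S.deg v

/-- `L(1 / q, E)` is not zero modulo `3`: if `L(T, E)` is a polynomial, then its reduction modulo `3`
has no zero at `1 / q`; the order of vanishing at `1 / q` is zero; and if the rank is at most this
order, then it is zero. -/
def NonVanishing (k : Type) {K : Type} [Field k] [Finite k] [Field K] [Algebra k K]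
    (a b : K) : Prop :=
  (∀ G : ℤ[X], S.Lfun k a b = (G : PowerSeries ℤ) →
    (G.map (Int.castRingHom (ZMod 3))).eval ((Nat.card k : ℕ) : ZMod 3)⁻¹ ≠ 0) ∧
  (∀ M : ℕ, S.VanishesTo k a b M → M = 0) ∧
  ∀ r : ℕ, HasOrder k a b r → rank a b ≤ r → r = 0 ∧ rank a b = 0

/-- The smallest class of rational functions containing the coordinate `t`, closed under the
fractional linear transformations over `k`, under `h ↦ h ^ n` for all `n` prime to `q ^ (2 m) + 1` for
all `m ≥ 1` (such as the products of primes which are `3` modulo `4`), and under `h ↦ h ^ p - h`, where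
`p` is the characteristic. -/
inductive Tame (k : Type) [Field k] : RatFunc k → Prop
  | coordinate : Tame k RatFunc.X
  | mobius (h : RatFunc k) (a b c d : k) (hdet : a * d - b * c ≠ 0) (hh : Tame k h) :
      Tame k ((algebraMap k (RatFunc k) a * h + algebraMap k (RatFunc k) b) /
        (algebraMap k (RatFunc k) c * h + algebraMap k (RatFunc k) d))
  | power (h : RatFunc k) (n : ℕ) (hn : ∀ m : ℕ, 0 < m → n.Coprime (Nat.card k ^ (2 * m) + 1))
      (hh : Tame k h) : Tame k (h ^ n)
  | artinSchreier (h : RatFunc k) (hh : Tame k h) : Tame k (h ^ ringChar k - h)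

theorem eqA {k K : Type} [Field k] [Field K] [Algebra k K] (c e : k) (h : K) :
    coeffA c e h = Pool.Agent.X278.TC.cA c e h := by
  unfold coeffA Pool.Agent.X278.TC.cA Pool.Agent.X278.TC.Q4
  simp only [map_mul, map_pow, map_sub, map_ofNat]
  ring

theorem eqB {k K : Type} [Field k] [Field K] [Algebra k K] (c e : k) (h : K) :
    coeffB c e h = Pool.Agent.X278.TC.cB c e h := by
  unfold coeffB Pool.Agent.X278.TC.cB Pool.Agent.X278.TC.Q6
  simp only [map_mul, map_pow, map_sub, map_ofNat]
  ring

theorem eqD {k K : Type} [Field k] [Field K] [Algebra k K] (c e : k) (h : K) :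
    cusp c e h = Pool.Agent.X278.TC.cD c e h := by
  unfold cusp Pool.Agent.X278.TC.cD Pool.Agent.X278.TC.QD
  simp only [map_mul, map_pow, map_sub, map_ofNat]
  ring

theorem eqTame {k : Type} [Field k] {h : RatFunc k} (hh : Tame k h) :
    Pool.Agent.X278.TC.Tame k h := by
  induction hh with
  | coordinate => exact .X
  | mobius h a b c d hdet _ ih => exact .mobius h a b c d hdet ih
  | power h n hn _ ih => exact .pow h n hn ih
  | artinSchreier h _ ih => exact .as h ih

/-- Let `k` be a finite field with `q` elements, of characteristic at least `5`, let `c`, `e` in `k`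
with `c ^ 3 ≠ e ^ 2` be such that `E_0 : y ^ 2 = x ^ 3 - 27 c x - 54 e` has no subgroup of order three
over `k`, and let `K` be the function field of a curve over `k`.

(1) For every `h` in `K`, `E_h : y ^ 2 = x ^ 3 + coeffA x + coeffB` is an elliptic curve; its
`j`-invariant is not constant if `h` is not constant. The order of vanishing at `1 / q` of `L(T, E_h)`,
and also of its reduction modulo `3`, is at most `rootNumber` of the numerator of the zeta function
of `K` plus `N / 4` times the sum of the weights of the zeros of `cusp c e h`.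

(2) If this numerator modulo `3` is prime to `T ^ (N / 2) + 1` and no zero of `cusp c e h` has a degree
divisible by `N`, then `L(1 / q, E_h)` is not zero modulo `3`, and the rank is zero if it is at most
the order of vanishing.

(3) This applies to `K = k(t)` and to all functions `h` of the class `Tame`, which are not
constant.

(4) For every finite field `k` of characteristic at least `5` there are such `c`, `e`. -/
theorem result :
    (∀ (k K : Type) [Field k] [Finite k] [Field K] [Algebra k K], (6 : k) ≠ 0 →
      IsCurveField k K → ∀ c e : k, c ^ 3 ≠ e ^ 2 → (∀ s : k, quartic c e s ≠ 0) →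
      ∀ h : K, 4 * coeffA c e h ^ 3 + 27 * coeffB c e h ^ 2 ≠ 0 ∧
        (h ∉ (algebraMap k K).range → ∀ a : k,
          6912 * coeffA c e h ^ 3 / (4 * coeffA c e h ^ 3 + 27 * coeffB c e h ^ 2) ≠
            algebraMap k K a) ∧
        ∀ P : ℤ[X], S.IsZetaNum k K P →
          (∀ G : ℤ[X], S.Lfun k (coeffA c e h) (coeffB c e h) = (G : PowerSeries ℤ) →
            (G.map (Int.castRingHom (ZMod 3))).rootMultiplicity ((Nat.card k : ℕ) : ZMod 3)⁻¹ ≤
              rootNumber k P + period k / 4 * ∑ᶠ v : FF.Place k K, cuspWeight v (cusp c e h)) ∧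
          ∀ M : ℕ, S.VanishesTo k (coeffA c e h) (coeffB c e h) M →
            M ≤ rootNumber k P + period k / 4 *
              ∑ᶠ v : FF.Place k K, cuspWeight v (cusp c e h)) ∧
    (∀ (k K : Type) [Field k] [Finite k] [Field K] [Algebra k K], (6 : k) ≠ 0 →
      IsCurveField k K → ∀ c e : k, c ^ 3 ≠ e ^ 2 → (∀ s : k, quartic c e s ≠ 0) →
      ∀ P : ℤ[X], S.IsZetaNum k K P → ∀ h : K, Conditions k P (cusp c e h) →
        NonVanishing k (coeffA c e h) (coeffB c e h)) ∧
    (∀ (k : Type) [Field k] [Finite k], (6 : k) ≠ 0 →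
      ∀ c e : k, c ^ 3 ≠ e ^ 2 → (∀ s : k, quartic c e s ≠ 0) →
      ∀ h : RatFunc k, Tame k h → h ∉ (algebraMap k (RatFunc k)).range ∧
        IsCurveField k (RatFunc k) ∧ S.IsZetaNum k (RatFunc k) 1 ∧ Conditions k 1 (cusp c e h)) ∧
    ∀ (k : Type) [Field k] [Finite k], (6 : k) ≠ 0 →
      ∃ c e : k, c ^ 3 ≠ e ^ 2 ∧ ∀ s : k, quartic c e s ≠ 0 := by
  refine ⟨?_, ?_, ?_, ?_⟩
  · intro k K _ _ _ _ h6 hK c e hδ hnr h
    haveI : FF.IsFF k K := ⟨hK.essFiniteType, hK.trdeg_eq_one⟩
    have h3 : (3 : k) ≠ 0 := by
      intro h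
      apply h6
      linear_combination 2 * h
    have hQ := Pool.Agent.X278.TC.cD_ne hK.algClosed h3 hnr h
    rw [eqA, eqB, eqD]
    exact ⟨Pool.Agent.X278.TC.cdisc_ne h6 (sub_ne_zero.2 hδ) hQ,
      fun hh => Pool.Agent.X278.TC.j_ne h6 hK.algClosed (sub_ne_zero.2 hδ) hnr hh,
      fun P hP => Pool.Agent.X278.TC.full_bound h6 hK hδ hnr h hP⟩
  · intro k K _ _ _ _ h6 hK c e hδ hnr P hP h hC
    rw [eqA, eqB]
    rw [eqD] at hC
    exact Pool.Agent.X278.TC.nonvan h6 hK hδ hnr hP ⟨hC.zeta, hC.cusp⟩
  · intro k _ _ h6 c e hδ hnr h hh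
    have h2 : (2 : k) ≠ 0 := by
      intro h
      apply h6
      linear_combination 3 * h
    have hh' := eqTame hh
    refine ⟨Pool.Agent.X278.TC.tame_nonconst h2 hh', Pool.Agent.TH958.T4.isCurveField_rat,
      Pool.Agent.W309.RF.isZetaNum_rat, ?_, ?_⟩
    · rw [Polynomial.map_one]
      exact isCoprime_one_left
    · intro v hv
      rw [eqD] at hv
      rw [S.deg_eq]
      exact Pool.Agent.X278.TC.tame_cond h6 (sub_ne_zero.2 hδ) hnr hh' v hv
  · intro k _ _ h6
    exact Pool.Agent.X278.TC.exists_data h6

end Pool.Agent.Results.MP_48b749_nt.ThreeCongruentFamilies
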