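import Pool.Agent.H313.CC.Ell

/-!
The rank of an elliptic curve over a function field in the Kummer extensions of degree `n ℓ ^ m`, which
contain a given Kummer extension of degree `n`.
-/

set_option autoImplicit false
set_option linter.all false
set_option maxHeartbeats 4000000

open Polynomial FF Module NumberField Pool.Agent.W343.BSD Pool.Agent.W313.Gr Pool.Agent.TH639.CK

namespace Pool.Agent.Results.MP_48b749_nt.TowersOverKummer

/-- The multiplicity of the zero one of the reduction of `P` modulo `ℓ`. -/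
noncomputable def multOne (ℓ : ℕ) (P : ℤ[X]) : ℕ :=
  (P.map (Int.castRingHom (ZMod ℓ))).rootMultiplicity 1

section defs

variable {k K : Type} [Field k] [Field K] [Algebra k K]

/-- The reduction at `v` is additive. -/
def IsAdditive (v : FF.Place k K) (a b : K) : Prop := condExp v a b = 2

/-- The multiplicity of the zero one of the reduction of `P` modulo `ℓ`, plus those of the reductions of
the Euler factors of `E` at the places at which the valuation of `f` is not divisible by `ℓ ^ s`. -/
noncomputable def bound (ℓ s : ℕ) (P : ℤ[X]) (f a b : K) : ℕ :=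
  multOne ℓ P + ∑ᶠ (v : FF.Place k K) (_ : ¬ ((ℓ ^ s : ℕ) : ℤ) ∣ v.ord f),
    multOne ℓ (S.locFactor v a b)

/-- `L` is the extension of degree `N` of `K` generated by an `N`-th root of `g`, and it is the function
field of a curve over `k`. -/
structure IsKummer (N : ℕ) (g : K) (L : Type) [Field L] [Algebra k L] [Algebra K L] : Prop where
  curveField : IsCurveField k L
  degree : finrank K L = N
  root : ∃ y : L, y ^ N = algebraMap K L g ∧ IntermediateField.adjoin K {y} = ⊤

/-- The Artin formalism: the `L`-function of `y ^ 2 = x ^ 3 + a x + b` over `L` is the product of the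
`L`-functions over `K` of the twists by the characters of `χ ^ j` and `g`, for `j = 0` the `L`-function
over `K`. -/
def ArtinFormula {F : Type} [Field F] [NumberField F] (χ : MulChar k (𝓞 F)) (N : ℕ) (g a b : K)
    (L : Type) [Field L] [Algebra k L] [Algebra K L] : Prop :=
  PowerSeries.map (algebraMap ℤ (𝓞 F)) (S.Lfun k (algebraMap K L a) (algebraMap K L b)) =
    PowerSeries.map (algebraMap ℤ (𝓞 F)) (S.Lfun k a b) *
      ∏ j ∈ Finset.Ico 1 N, twistL (χ ^ j) g a b

/-- `P` is the product of the `L`-functions of the twists by the characters of `χ ^ j` and `g`,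
`0 < j < N`. -/
def IsTwistPolynomial {F : Type} [Field F] [NumberField F] (χ : MulChar k (𝓞 F)) (N : ℕ)
    (g a b : K) (P : ℤ[X]) : Prop :=
  ∏ j ∈ Finset.Ico 1 N, twistL (χ ^ j) g a b =
    PowerSeries.map (algebraMap ℤ (𝓞 F)) (P : PowerSeries ℤ)

/-- The rank of `y ^ 2 = x ^ 3 + a x + b` over `K` is the order of the zero of its `L`-function at
`T = 1 / q`. -/
def RankIsOrder (k : Type) {K : Type} [Field k] [Field K] [Algebra k K] (a b : K) : Prop :=
  ∃ r : ℕ, HasOrder k a b r ∧ rank a b = r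

/-- The rank of `y ^ 2 = x ^ 3 + a x + b` over `K` is at most the order of the zero of its `L`-function
at `T = 1 / q`. -/
def RankLeOrder (k : Type) {K : Type} [Field k] [Field K] [Algebra k K] (a b : K) : Prop :=
  ∀ r : ℕ, HasOrder k a b r → rank a b ≤ r

end defs

section proof

variable {k K : Type} [Field k] [Finite k] [Field K] [Algebra k K] [FF.IsFF k K]

open Pool.Agent.TH639.SN (exists_poly)

/-- multiplicities over `ℚ` and over `F` -/
theorem mult_eq {F : Type} [Field F] [NumberField F] (G : ℤ[X]) :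
    (G.map (Int.castRingHom ℚ)).rootMultiplicity ((Nat.card k : ℚ)⁻¹) =
      ((G.map (algebraMap ℤ (𝓞 F))).map (algebraMap (𝓞 F) F)).rootMultiplicity
        ((Nat.card k : F)⁻¹) := by
  have h1 := Polynomial.eq_rootMultiplicity_map (p := G.map (Int.castRingHom ℚ))
    (algebraMap ℚ F).injective ((Nat.card k : ℚ)⁻¹)
  rw [h1, map_inv₀, map_natCast, Polynomial.map_map, Polynomial.map_map]
  congr 2
  exact RingHom.ext_int _ _

/-- the order in one extension -/
theorem order_ext {N : ℕ} {F : Type} [Field F] [NumberField F]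
    {χ : MulChar k (𝓞 F)} {a b : K} (hE : 4 * a ^ 3 + 27 * b ^ 2 ≠ 0) {P : ℤ[X]}
    (hP : S.Lfun k a b = (P : PowerSeries ℤ)) {f : K} (hf : f ≠ 0) {Q : ℕ → Polynomial (𝓞 F)}
    (hQ : ∀ j ∈ Finset.Ico 1 N, twistL (χ ^ j) f a b = (Q j : PowerSeries (𝓞 F)))
    {L : Type} [Field L] [Algebra k L] [Algebra K L] {u : k} (hu : u ≠ 0)
    (hA : ArtinFormula χ N (algebraMap k K u * f) a b L) :
    HasOrder k (algebraMap K L a) (algebraMap K L b)
      ((P.map (Int.castRingHom ℚ)).rootMultiplicity ((Nat.card k : ℚ)⁻¹) +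
        ∑ j ∈ Finset.Ico 1 N, ((Q j).map (algebraMap (𝓞 F) F)).rootMultiplicity
          (algebraMap (𝓞 F) F ((χ ^ j) u) * (Nat.card k : F)⁻¹)) := by
  classical
  set φ := algebraMap (𝓞 F) F with hφd
  have hφ : Function.Injective φ := RingOfIntegers.coe_injective
  -- the polynomial over the ring of integers
  have hscale : ∀ j ∈ Finset.Ico 1 N, twistL (χ ^ j) (algebraMap k K u * f) a b =
      (((Q j).comp (C ((χ ^ j) u) * X) : Polynomial (𝓞 F)) : PowerSeries (𝓞 F)) := by
    intro j hj
    rw [twistL_const (χ ^ j) hf hu, hQ j hj]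
    ext i
    rw [PowerSeries.coeff_rescale, Polynomial.coeff_coe, Polynomial.coeff_coe,
      Polynomial.comp_C_mul_X_coeff, mul_comm]
  have hA' := hA
  unfold ArtinFormula at hA'
  rw [hP, ← Polynomial.polynomial_map_coe, Finset.prod_congr rfl hscale] at hA'
  have hA2 : PowerSeries.map (algebraMap ℤ (𝓞 F))
      (S.Lfun k (algebraMap K L a) (algebraMap K L b)) =
      ((P.map (algebraMap ℤ (𝓞 F)) * ∏ j ∈ Finset.Ico 1 N,
        (Q j).comp (C ((χ ^ j) u) * X) : Polynomial (𝓞 F)) : PowerSeries (𝓞 F)) := by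
    rw [hA', Polynomial.coe_mul, coe_prod']
  have hZ : Function.Injective (algebraMap ℤ (𝓞 F)) := RingHom.injective_int _
  obtain ⟨PL, hPL, hPLm⟩ := exists_poly hZ hA2
  refine ⟨PL, hPL.symm, ?_⟩
  rw [mult_eq (k := k) (F := F), hPLm, Polynomial.map_mul, Polynomial.map_prod]
  have hP0 : ((P.map (algebraMap ℤ (𝓞 F))).map φ) ≠ 0 := by
    rw [Polynomial.map_ne_zero_iff hφ, Polynomial.map_ne_zero_iff hZ]
    rintro rfl
    have hu := unit_coeff (k := k) hE
    rw [hP, Polynomial.coe_zero, map_zero] at hu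
    exact not_isUnit_zero hu
  have hc0 : ∀ j : ℕ, φ ((χ ^ j) u) ≠ 0 := by
    intro j
    exact (((isUnit_iff_ne_zero.2 hu).map (χ ^ j)).map φ).ne_zero
  have hcomp : ∀ j, ((Q j).comp (C ((χ ^ j) u) * X)).map φ =
      ((Q j).map φ).comp (C (φ ((χ ^ j) u)) * X + C 0) := by
    intro j
    rw [Polynomial.map_comp, Polynomial.map_mul, Polynomial.map_C, Polynomial.map_X, C_0, add_zero]
  have hQ0 : ∀ j ∈ Finset.Ico 1 N, (((Q j).comp (C ((χ ^ j) u) * X)).map φ) ≠ 0 := by
    intro j hj h
    rw [Polynomial.map_eq_zero_iff hφ] at h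
    apply twistL_ne (χ ^ j) (algebraMap k K u * f) a b
    rw [hscale j hj, h, Polynomial.coe_zero]
  rw [rm_mul _ hP0 (Finset.prod_ne_zero_iff.2 hQ0), rm_prod _ _ _ hQ0,
    ← mult_eq (k := k) (F := F)]
  congr 1
  refine Finset.sum_congr rfl fun j _ => ?_
  rw [hcomp, rootMultiplicity_comp_C_mul_X_add_C _ _ _ _ (hc0 j).isUnit, add_zero]

theorem order_unique {a b : K} {r s : ℕ} (hr : HasOrder k a b r) (hs : HasOrder k a b s) :
    r = s := by
  obtain ⟨P, hP, h1⟩ := hr
  obtain ⟨P', hP', h2⟩ := hs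
  have : P = P' := Polynomial.coe_injective ℤ (by rw [← hP, hP'])
  subst this
  rw [← h1, ← h2]

theorem finsum_eq {ℓ m : ℕ} {P : ℤ[X]} {f a b : K} (hf : f ≠ 0) (B : Finset (FF.Place k K))
    (hB : ∀ v, v ∈ B ↔ ¬ ((ℓ ^ m : ℕ) : ℤ) ∣ v.ord f) : bound (k := k) ℓ m P f a b =
      Pool.Agent.TH639.SG.muL ℓ P +
        ∑ v ∈ B, Pool.Agent.TH639.SG.muL ℓ (S.locFactor v a b) := by
  classical
  unfold bound
  congr 1
  have h1 : ∀ v : FF.Place k K, (∑ᶠ (_ : ¬ ((ℓ ^ m : ℕ) : ℤ) ∣ v.ord f),
      multOne ℓ (S.locFactor v a b)) = ∑ᶠ (_ : v ∈ B), multOne ℓ (S.locFactor v a b) := by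
    intro v
    rw [finsum_eq_if, finsum_eq_if]
    simp only [hB v]
  rw [finsum_congr h1, finsum_mem_finset_eq_sum]
  rfl

end proof

/-- **Ranks in the towers over a Kummer extension.**

Let `K` be the function field of a curve over the field `k` with `q` elements, of characteristic at
least `5`, and `E : y ^ 2 = x ^ 3 + a x + b` an elliptic curve over `K` with `L(T, E/K) = P(T)`. Let `ℓ`
be a prime, `n ≥ 1` prime to `ℓ`, `m ≥ 1`, and `N = n ℓ ^ m` a divisor of `q - 1`; let `χ` be a
character of `k` of order `N` with values in the ring of integers of a Galois number field `F`. Let `f`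
in `K` be such that the valuation of `f` at every place is divisible by `ℓ ^ m` or prime to `n` (for
instance, all the zeros and poles of `f` are simple), and such that the twists of `L(T, E/K)` by the
characters of `χ ^ j` and `f`, `0 < j < N`, are polynomials (this holds if `j_E` is not constant,
Grothendieck). If `N` is divisible by `2` or `3` we assume that the reduction of `E` is not additive at
the places at which the valuation of `f` is not divisible by `N` (otherwise the twisted `L`-functions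
would have more Euler factors).

Let `Kn` be the extension of degree `n` of `K` generated by an `n`-th root of `f`, and for `v` in the
unit group of `k` let `L` be the extension of degree `N` of `K` generated by an `N`-th root `y` of
`v ^ n f`, which contains `Kn` by means of the `n`-th root `y ^ (ℓ ^ m) / v` of `f`; we assume that `k`
is the field of constants of `Kn` and `L`, and we use the Artin formalism for the `L`-functions of `E`
over `Kn` and `L`. Let `Pn` be the polynomial `L(T, E/Kn) / L(T, E/K)`. Let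
`M_s = bound ℓ s P f a b + multOne ℓ Pn`.

Then, for all `v` outside a set `T` with `ℓ ^ m |T| ≤ (q - 1) ∑ ℓ ^ e M_(m - e)`, the sum over
`0 ≤ e < m`, the `L`-functions of `E` over `L` and over `Kn` have the same order of vanishing at `1 / q`,
and if the rank of `E(Kn)` is the order of `L(T, E/Kn)`, then the rank of `E(L)` is the order of
`L(T, E/L)`, and both are equal to the rank of `E(Kn)`. (The inequality between the rank and the order,
known by Tate, is an assumption in the formal statement.)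

The field `L` depends only on the class of `v` modulo `ℓ ^ m`-th powers, so at most `∑ ℓ ^ e M_(m - e)` of
the `ℓ ^ m` classes are exceptional. If `M_s ≤ M` for all `s`, this is less than `ℓ ^ m M / (ℓ - 1)`. For
`n = 1` this is `MP_48b749_nt.ConstantTwistsKummer`. Example for `n > 1`: `E` is a rational elliptic
surface over `K = k(t)`, `f` is a rational function with one simple zero and one simple pole, rational
over `k`, at which `E` has good reduction, and `n = 2`. Then `Kn` is a rational function field, and `E`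
over `Kn` is a K3 surface with an elliptic pencil, for which the equality of the rank and the order is
known (Artin, Swinnerton-Dyer). So it holds over `L`, for all odd `ℓ ^ m` dividing `q - 1`, except for at
most `∑ ℓ ^ e M_(m - e)` of the `ℓ ^ m` classes of `v`; the geometric genus of the elliptic surface over
`L` tends to infinity with `ℓ ^ m`. -/
theorem result (k K : Type) [Field k] [Finite k] [Field K] [Algebra k K] (h6 : (6 : k) ≠ 0)
    (hK : IsCurveField k K) (ℓ m n : ℕ) (hℓ : ℓ.Prime) (hm : m ≠ 0) (hn0 : 0 < n)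
    (hn : n.Coprime ℓ) (F : Type) [Field F] [NumberField F] [IsGalois ℚ F] (χ : MulChar k (𝓞 F))
    (hχ : orderOf χ = n * ℓ ^ m) (a b : K) (hE : 4 * a ^ 3 + 27 * b ^ 2 ≠ 0) (P : ℤ[X])
    (hP : S.Lfun k a b = (P : PowerSeries ℤ)) (f : K) (hf : f ≠ 0)
    (hval : ∀ v : FF.Place k K, ((ℓ ^ m : ℕ) : ℤ) ∣ v.ord f ∨ IsCoprime (v.ord f) (n : ℤ))
    (hadd : ¬ Nat.Coprime (n * ℓ ^ m) 6 → ∀ v : FF.Place k K, IsAdditive v a b →
      ((n * ℓ ^ m : ℕ) : ℤ) ∣ v.ord f)
    (hpoly : ∀ j ∈ Finset.Ico 1 (n * ℓ ^ m), ∃ Q : (𝓞 F)[X],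
      twistL (χ ^ j) f a b = (Q : PowerSeries (𝓞 F)))
    (Pn : ℤ[X]) (hPn : IsTwistPolynomial (χ ^ ℓ ^ m) n f a b Pn)
    (Kn : Type) [Field Kn] [Algebra k Kn] [Algebra K Kn] [IsScalarTower k K Kn]
    (hKn : IsKummer (k := k) n f Kn) (hAn : ArtinFormula (χ ^ ℓ ^ m) n f a b Kn) :
    ∃ T : Finset kˣ, ℓ ^ m * T.card ≤ (Nat.card k - 1) *
        ∑ e ∈ Finset.range m, ℓ ^ e * (bound (k := k) ℓ (m - e) P f a b + multOne ℓ Pn) ∧
      ∀ v ∉ T, ∀ (L : Type) [Field L] [Algebra k L] [Algebra K L] [Algebra Kn L]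
        [IsScalarTower k K L] [IsScalarTower K Kn L],
        IsKummer (k := k) (n * ℓ ^ m) (algebraMap k K ((v : k) ^ n) * f) L →
        ArtinFormula χ (n * ℓ ^ m) (algebraMap k K ((v : k) ^ n) * f) a b L →
        (∀ r : ℕ, HasOrder k (algebraMap K Kn a) (algebraMap K Kn b) r →
          HasOrder k (algebraMap K L a) (algebraMap K L b) r) ∧
        (RankIsOrder k (algebraMap K Kn a) (algebraMap K Kn b) →
          RankLeOrder k (algebraMap K L a) (algebraMap K L b) →
          RankIsOrder k (algebraMap K L a) (algebraMap K L b) ∧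
            rank (algebraMap K L a) (algebraMap K L b) =
              rank (algebraMap K Kn a) (algebraMap K Kn b)) := by
  classical
  have hFF : FF.IsFF k K := ⟨hK.essFiniteType, hK.trdeg_eq_one⟩
  have hfin : ∀ m : ℕ, {v : FF.Place k K | ¬ ((ℓ ^ m : ℕ) : ℤ) ∣ v.ord f}.Finite := by
    intro m
    refine (Pool.Agent.H525R3.FFp.finite_support (k := k) f).subset ?_
    intro v hv h0
    apply hv
    rw [h0]
    exact dvd_zero _
  set B : ℕ → Finset (FF.Place k K) := fun m => (hfin m).toFinset with hBd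
  have hB : ∀ m, ∀ v, v ∈ B m ↔ ¬ ((ℓ ^ m : ℕ) : ℤ) ∣ v.ord f := fun m v => by
    rw [hBd, Set.Finite.mem_toFinset]
    rfl
  have hbd : ∀ m, bound (k := k) ℓ m P f a b = Pool.Agent.TH639.SG.muL ℓ P +
        ∑ v ∈ B m, Pool.Agent.TH639.SG.muL ℓ (S.locFactor v a b) :=
    fun m => finsum_eq hf (B m) (hB m)
  choose! Q hQ using hpoly
  have hpa : 0 < ℓ ^ m := pow_pos hℓ.pos m
  have hbase : ∀ i ∈ Finset.Ico 1 n, i * ℓ ^ m ∈ Finset.Ico 1 (n * ℓ ^ m) := by
    intro i hi
    rw [Finset.mem_Ico] at hi ⊢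
    exact ⟨Nat.mul_pos hi.1 hpa, Nat.mul_lt_mul_of_pos_right hi.2 hpa⟩
  have hpw : ∀ i : ℕ, (χ ^ ℓ ^ m) ^ i = χ ^ (i * ℓ ^ m) := fun i => by
    rw [← pow_mul, mul_comm]
  have hPn' : ∏ i ∈ Finset.Ico 1 n, twistL (χ ^ (i * ℓ ^ m)) f a b =
      PowerSeries.map (algebraMap ℤ (𝓞 F)) (Pn : PowerSeries ℤ) := by
    rw [← hPn]
    exact Finset.prod_congr rfl fun i _ => by rw [hpw]
  obtain ⟨T, hT, hTv⟩ := Pool.Agent.H313.CC.tower_ell hℓ hm hn0 hn F hχ hE hP hf hval B hB hQ
    hPn' 1
  refine ⟨T, ?_, ?_⟩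
  · simp only [hbd]
    exact hT
  · intro v hv L _ _ _ _ _ _ _ hA
    have hv0 : ((v : k) ^ n) ≠ 0 := pow_ne_zero n v.ne_zero
    have hord : ∀ r : ℕ, HasOrder k (algebraMap K Kn a) (algebraMap K Kn b) r →
        HasOrder k (algebraMap K L a) (algebraMap K L b) r := by
      intro r hr
      have h1 := order_ext hE hP hf hQ hv0 hA
      have hQ1 : ∀ i ∈ Finset.Ico 1 n, twistL ((χ ^ ℓ ^ m) ^ i) f a b =
          (Q (i * ℓ ^ m) : PowerSeries (𝓞 F)) := fun i hi => by rw [hpw, hQ _ (hbase i hi)]
      have hAn' : ArtinFormula (χ ^ ℓ ^ m) n (algebraMap k K 1 * f) a b Kn := by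
        rw [map_one, one_mul]
        exact hAn
      have h2 := order_ext (L := Kn) hE hP hf hQ1 one_ne_zero hAn'
      have hFn : FF.IsFF k Kn := ⟨hKn.curveField.essFiniteType, hKn.curveField.trdeg_eq_one⟩
      have h3 := order_unique hr h2
      have h4 := Pool.Agent.H313.CC.order_sum hℓ hn0 F hχ Q (hTv v hv)
      rw [h3]
      have h5 : ∑ i ∈ Finset.Ico 1 n, ((Q (i * ℓ ^ m)).map (algebraMap (𝓞 F) F)).rootMultiplicity
          (algebraMap (𝓞 F) F (((χ ^ ℓ ^ m) ^ i) 1) * (Nat.card k : F)⁻¹) =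
          ∑ j ∈ Finset.Ico 1 (n * ℓ ^ m), ((Q j).map (algebraMap (𝓞 F) F)).rootMultiplicity
            (algebraMap (𝓞 F) F ((χ ^ j) ((v : k) ^ n)) * (Nat.card k : F)⁻¹) := by
        rw [pow_one] at h4
        rw [h4]
        refine Finset.sum_congr rfl fun i _ => ?_
        rw [map_one, map_one, one_mul]
      rw [h5]
      exact h1
    refine ⟨hord, ?_⟩
    rintro ⟨r, hr, hrank⟩ hle
    have hmono : rank (algebraMap K Kn a) (algebraMap K Kn b) ≤
        rank (algebraMap K L a) (algebraMap K L b) := by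
      rw [IsScalarTower.algebraMap_apply K Kn L a, IsScalarTower.algebraMap_apply K Kn L b]
      exact rank_mono _ _
    have h2 : rank (algebraMap K L a) (algebraMap K L b) = r :=
      le_antisymm (hle r (hord r hr)) (hrank ▸ hmono)
    exact ⟨⟨r, hord r hr, h2⟩, by rw [h2, hrank]⟩

end Pool.Agent.Results.MP_48b749_nt.TowersOverKummer
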